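import Mathlib
import Pool.Agent.H11.Selberg.Defs
import Pool.Agent.H11.SC.Defs

/-!
# IP: THEOREM IC in weight one: a primitive element has no pole (MP_8e9775_nt)

If `F` has weight one and a pole at `s = 1` then `(1 - 2^(1-s)) (1 - 2^(-s)) F(s)` is entire, with integral
coefficients `a(n) - 3 a(n/2) + 2 a(n/4)` and the same functional equation with `4N` in place of `N`.
-/

set_option autoImplicit false

namespace Pool.Agent.H13.IP

/-- the coefficients of `(1 - 2^(1-s)) (1 - 2^(-s)) F(s)` -/
def tw {R : Type} [Ring R] (a : ℕ → R) (n : ℕ) : R :=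
  a n - 3 * (if 2 ∣ n then a (n / 2) else 0) + 2 * (if 4 ∣ n then a (n / 4) else 0)

end Pool.Agent.H13.IP
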