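import Mathlib
import Pool.Agent.H13.IP.Defs

/-!
# IP-PA: in weight one the pole at s = 1 is at most simple

PROOF. Compare `entire_of_weight` (Pool/Agent/H13/IC/Ha.lean). `IsSelberg.continuation`: `m`, `G0` entire of
finite order, `G0 s = (s-1)^m F s` for `s ≠ 1`. If `m = 0` take `G s = (s-1) G0 s`. Let `m ≥ 1`. In the strip
`0 < Re s < 1` the functional equation (one factor `Γ(s)`, as `(1-1)/2 = 0`; `Q = sqrt N/(2π) > 0`) gives
`‖Q^s Γ(s) F s‖ = ‖Q^(1-s) Γ(1 - conj s) F(1 - conj s)‖`. Let `s = t` real, `t → 0+`: `t Γ(t) = Γ(t+1)` is bounded and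
`F(t) = G0(t)/(t-1)^m` is bounded, so `t ‖F(1-t)‖` is bounded (`Γ(1-t)`, `Q^(1-t)` are bounded away from `0`). So
`‖G0(1-t)‖ = t^m ‖F(1-t)‖ = O(t^(m-1))`, hence `G0` vanishes at `1` to order at least `m - 1` (or `G0 = 0`):
`G0 s = (s-1)^(m-1) G s` with `G` entire, and `G s = (s-1) F s` for `s ≠ 1`. Finite order: for `‖s-1‖ ≥ 1`
`‖G s‖ ≤ ‖G0 s‖`; for `‖s-1‖ ≤ 1` `G` is bounded; enlarge `C`.
-/

set_option autoImplicit false

namespace Pool.Agent.H13.IP

open Complex Pool.Agent.H11.Selberg Pool.Agent.H11.SC Filter Topology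

private theorem pa_div : ∀ (m : ℕ) (G0 F0 : ℂ → ℂ) (B : ℝ), Differentiable ℂ G0 →
    (∀ s, s ≠ 1 → G0 s = (s - 1) ^ m * F0 s) →
    (∀ᶠ x : ℝ in 𝓝[>] (0 : ℝ), ‖F0 (1 - (x : ℂ))‖ ≤ B) →
    ∃ G : ℂ → ℂ, Differentiable ℂ G ∧ ∀ s, s ≠ 1 → G s = F0 s := by
  intro m
  induction m with
  | zero =>
    intro G0 F0 B hd h _
    exact ⟨G0, hd, fun s hs => by rw [h s hs, pow_zero, one_mul]⟩
  | succ m ih =>
    intro G0 F0 B hd h hB
    -- `G0` vanishes at `1`
    have h1 : G0 1 = 0 := by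
      have hlim : Tendsto (fun x : ℝ => G0 (1 - (x : ℂ))) (𝓝[>] (0 : ℝ)) (𝓝 (G0 1)) := by
        have h2 : Continuous fun x : ℝ => G0 (1 - (x : ℂ)) :=
          hd.continuous.comp (continuous_const.sub Complex.continuous_ofReal)
        have h3 := h2.tendsto 0
        rw [Complex.ofReal_zero, sub_zero] at h3
        exact h3.mono_left nhdsWithin_le_nhds
      have hlim0 : Tendsto (fun x : ℝ => G0 (1 - (x : ℂ))) (𝓝[>] (0 : ℝ)) (𝓝 0) := by
        rw [tendsto_zero_iff_norm_tendsto_zero]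
        have h4 : Tendsto (fun x : ℝ => x ^ (m + 1) * B) (𝓝[>] (0 : ℝ)) (𝓝 0) := by
          have h5 : Continuous fun x : ℝ => x ^ (m + 1) * B := by fun_prop
          have h6 := h5.tendsto 0
          rw [zero_pow (Nat.succ_ne_zero m), zero_mul] at h6
          exact h6.mono_left nhdsWithin_le_nhds
        refine squeeze_zero' (Eventually.of_forall fun x => norm_nonneg _) ?_ h4
        filter_upwards [hB, self_mem_nhdsWithin] with x hx hx0
        have hx1 : (1 - (x : ℂ)) ≠ 1 := by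
          intro h0
          have h6 : (x : ℂ) = 0 := by linear_combination -h0
          exact (ne_of_gt hx0) (Complex.ofReal_eq_zero.1 h6)
        rw [h _ hx1, norm_mul, norm_pow]
        have h7 : ‖(1 - (x : ℂ)) - 1‖ = x := by
          have : (1 - (x : ℂ)) - 1 = -(x : ℂ) := by ring
          rw [this, norm_neg, Complex.norm_real, Real.norm_eq_abs, abs_of_pos hx0]
        rw [h7]
        exact mul_le_mul_of_nonneg_left hx (pow_nonneg (le_of_lt hx0) _)
      exact tendsto_nhds_unique hlim hlim0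
    have hd1 : Differentiable ℂ (dslope G0 1) := by
      rw [← differentiableOn_univ, Complex.differentiableOn_dslope univ_mem]
      exact hd.differentiableOn
    refine ih (dslope G0 1) F0 B hd1 (fun s hs => ?_) hB
    rw [dslope_of_ne _ hs, slope_def_field, h1, sub_zero, h s hs]
    have h2 : s - 1 ≠ 0 := sub_ne_zero.2 hs
    field_simp
    ring

theorem pole_le_one (N : ℝ) (hN : 0 < N) (a : ℕ → ℂ) (F : ℂ → ℂ) (ε : ℂ) (hS : IsSelberg a F)
    (hε : ‖ε‖ = 1)
    (hfe : ∀ s : ℂ, 0 < s.re → s.re < 1 →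
      completed (Real.sqrt N / (2 * Real.pi)) (fun _ : Fin 1 => (1 : ℝ))
          (fun _ => (((1 : ℕ) : ℂ) - 1) / 2) F s =
        ε * (starRingEnd ℂ) (completed (Real.sqrt N / (2 * Real.pi)) (fun _ : Fin 1 => (1 : ℝ))
          (fun _ => (((1 : ℕ) : ℂ) - 1) / 2) F (1 - (starRingEnd ℂ) s))) :
    ∃ G : ℂ → ℂ, Differentiable ℂ G ∧ (∃ A C : ℝ, ∀ s, ‖G s‖ ≤ C * Real.exp (‖s‖ ^ A)) ∧
      ∀ s, s ≠ 1 → G s = (s - 1) * F s := by
  obtain ⟨Q, hQ⟩ : ∃ Q : ℝ, Q = Real.sqrt N / (2 * Real.pi) := ⟨_, rfl⟩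
  have hQ0 : 0 < Q := by
    rw [hQ]
    exact div_pos (Real.sqrt_pos.2 hN) (by positivity)
  rw [← hQ] at hfe
  have hcomp : ∀ (H : ℂ → ℂ) (s : ℂ), completed Q (fun _ : Fin 1 => (1 : ℝ))
      (fun _ => (((1 : ℕ) : ℂ) - 1) / 2) H s = (Q : ℂ) ^ s * Complex.Gamma s * H s := by
    intro H s
    unfold completed
    simp
  obtain ⟨m, G0, hG0, hord, hG0F⟩ := hS.continuation
  have hQc : (Q : ℂ) ≠ 0 := Complex.ofReal_ne_zero.2 hQ0.ne'
  have hgne : ∀ s : ℂ, 0 < s.re → ∀ n : ℕ, s ≠ -(n : ℂ) := by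
    intro s hs n h0
    rw [h0, Complex.neg_re, Complex.natCast_re] at hs
    have : (0 : ℝ) ≤ n := Nat.cast_nonneg n
    linarith
  obtain ⟨B, hB⟩ : ∃ B : ℝ, ∀ᶠ x : ℝ in 𝓝[>] (0 : ℝ),
      ‖((1 - (x : ℂ)) - 1) * F (1 - (x : ℂ))‖ ≤ B := by
    obtain ⟨φ, hφ⟩ : ∃ φ : ℝ → ℝ, φ = fun x : ℝ =>
        ‖(Q : ℂ) ^ (x : ℂ) * Complex.Gamma ((x : ℂ) + 1) * (G0 (x : ℂ) / ((x : ℂ) - 1) ^ m)‖ /
          ‖(Q : ℂ) ^ (1 - (x : ℂ)) * Complex.Gamma (1 - (x : ℂ))‖ := ⟨_, rfl⟩
    have hcont : ContinuousAt φ 0 := by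
      rw [hφ]
      have c1 : ContinuousAt (fun x : ℝ => (Q : ℂ) ^ (x : ℂ)) 0 :=
        (Complex.continuous_ofReal.const_cpow (Or.inl hQc)).continuousAt
      have c2 : ContinuousAt (fun x : ℝ => Complex.Gamma ((x : ℂ) + 1)) 0 := by
        have h1 : ContinuousAt Complex.Gamma (((0 : ℝ) : ℂ) + 1) := by
          refine (Complex.differentiableAt_Gamma _ (hgne _ ?_)).continuousAt
          simp
        exact ContinuousAt.comp (f := fun x : ℝ => (x : ℂ) + 1) h1
          (Complex.continuous_ofReal.add continuous_const).continuousAt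
      have c3 : ContinuousAt (fun x : ℝ => G0 (x : ℂ) / ((x : ℂ) - 1) ^ m) 0 := by
        refine ContinuousAt.div (hG0.continuous.comp Complex.continuous_ofReal).continuousAt
          ((Complex.continuous_ofReal.sub continuous_const).pow m).continuousAt ?_
        rw [Complex.ofReal_zero, zero_sub]
        exact pow_ne_zero _ (by norm_num)
      have c4 : ContinuousAt (fun x : ℝ => (Q : ℂ) ^ (1 - (x : ℂ))) 0 :=
        ((continuous_const.sub Complex.continuous_ofReal).const_cpow (Or.inl hQc)).continuousAt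
      have c5 : ContinuousAt (fun x : ℝ => Complex.Gamma (1 - (x : ℂ))) 0 := by
        have h1 : ContinuousAt Complex.Gamma (1 - ((0 : ℝ) : ℂ)) := by
          refine (Complex.differentiableAt_Gamma _ (hgne _ ?_)).continuousAt
          simp
        exact ContinuousAt.comp (f := fun x : ℝ => 1 - (x : ℂ)) h1
          (continuous_const.sub Complex.continuous_ofReal).continuousAt
      refine ContinuousAt.div ((c1.mul c2).mul c3).norm (c4.mul c5).norm ?_
      rw [norm_ne_zero_iff]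
      refine mul_ne_zero ?_ (Complex.Gamma_ne_zero_of_re_pos ?_)
      · rw [Complex.ofReal_zero, sub_zero, Complex.cpow_one]
        exact hQc
      · simp
    refine ⟨φ 0 + 1, ?_⟩
    have h1 : ∀ᶠ x : ℝ in 𝓝[>] (0 : ℝ), φ x < φ 0 + 1 :=
      (hcont.eventually (gt_mem_nhds (by linarith))).filter_mono nhdsWithin_le_nhds
    have h2 : ∀ᶠ x : ℝ in 𝓝[>] (0 : ℝ), x < 1 :=
      (gt_mem_nhds one_pos).filter_mono nhdsWithin_le_nhds
    filter_upwards [h1, h2, self_mem_nhdsWithin] with x hx1 hx2 hx0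
    have hx0' : 0 < x := hx0
    have hxc : (x : ℂ) ≠ 0 := Complex.ofReal_ne_zero.2 hx0'.ne'
    have h3 := hfe (x : ℂ) (by simpa using hx0') (by simpa using hx2)
    rw [Complex.conj_ofReal, hcomp, hcomp] at h3
    have h4 := congrArg norm h3
    rw [norm_mul ε, hε, one_mul, Complex.norm_conj, norm_mul _ (F (1 - (x : ℂ)))] at h4
    have hden : 0 < ‖(Q : ℂ) ^ (1 - (x : ℂ)) * Complex.Gamma (1 - (x : ℂ))‖ := by
      rw [norm_pos_iff]
      refine mul_ne_zero ?_ (Complex.Gamma_ne_zero_of_re_pos ?_)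
      · rw [Ne, Complex.cpow_eq_zero_iff]
        exact fun h => hQc h.1
      · simp only [Complex.sub_re, Complex.one_re, Complex.ofReal_re]
        linarith
    have hxne : (x : ℂ) ≠ 1 := by
      intro h0
      have : x = 1 := by exact_mod_cast h0
      linarith
    have h5 : G0 (x : ℂ) / ((x : ℂ) - 1) ^ m = F (x : ℂ) := by
      rw [hG0F _ hxne, mul_div_cancel_left₀ _ (pow_ne_zero m (sub_ne_zero.2 hxne))]
    have h6 : ‖((1 - (x : ℂ)) - 1) * F (1 - (x : ℂ))‖ = φ x := by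
      have e1 : (1 - (x : ℂ)) - 1 = -(x : ℂ) := by ring
      rw [e1, norm_mul, norm_neg, hφ]
      simp only
      rw [h5, Complex.Gamma_add_one _ hxc]
      have e2 : (Q : ℂ) ^ (x : ℂ) * ((x : ℂ) * Complex.Gamma (x : ℂ)) * F (x : ℂ) =
          (x : ℂ) * ((Q : ℂ) ^ (x : ℂ) * Complex.Gamma (x : ℂ) * F (x : ℂ)) := by ring
      rw [e2, norm_mul (x : ℂ), h4, eq_div_iff hden.ne']
      ring
    rw [h6]
    exact hx1.le
  obtain ⟨G, hG, hGF⟩ := pa_div m (fun s => (s - 1) * G0 s) (fun s => (s - 1) * F s) B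
    ((differentiable_id.sub_const 1).mul hG0) (fun s hs => by
      rw [hG0F s hs]
      ring) hB
  refine ⟨G, hG, ?_, hGF⟩
  obtain ⟨A, C, hAC⟩ := hord
  obtain ⟨M, hM⟩ := (isCompact_closedBall (1 : ℂ) 1).exists_bound_of_continuousOn
    hG.continuous.continuousOn
  by_cases hm : m = 0
  · -- `G s = (s - 1) G0 s` for `s ≠ 1`
    obtain ⟨M2, hM2⟩ := (isCompact_closedBall (0 : ℂ) 2).exists_bound_of_continuousOn
      hG.continuous.continuousOn
    refine ⟨max A 1 + 1, |C| + |M2|, fun s => ?_⟩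
    have he : 1 ≤ Real.exp (‖s‖ ^ (max A 1 + 1)) :=
      Real.one_le_exp (Real.rpow_nonneg (norm_nonneg s) _)
    have he0 : 0 < Real.exp (‖s‖ ^ (max A 1 + 1)) := Real.exp_pos _
    by_cases hs : ‖s‖ ≤ 2
    · have h1 := hM2 s (by rw [Metric.mem_closedBall, dist_zero_right]; exact hs)
      calc ‖G s‖ ≤ M2 := h1
        _ ≤ |C| + |M2| := by
          have := le_abs_self M2
          have := abs_nonneg C
          linarith
        _ = (|C| + |M2|) * 1 := (mul_one _).symm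
        _ ≤ (|C| + |M2|) * Real.exp (‖s‖ ^ (max A 1 + 1)) :=
          mul_le_mul_of_nonneg_left he (by positivity)
    · push Not at hs
      have hs1 : s ≠ 1 := by
        rintro rfl
        rw [norm_one] at hs
        linarith
      have ht1 : 1 ≤ ‖s‖ := by linarith
      have h1 : ‖G s‖ ≤ (1 + ‖s‖) * ‖G0 s‖ := by
        rw [hGF s hs1, hG0F s hs1, hm, pow_zero, one_mul, norm_mul]
        refine mul_le_mul_of_nonneg_right ?_ (norm_nonneg _)
        calc ‖s - 1‖ ≤ ‖s‖ + ‖(1 : ℂ)‖ := norm_sub_le _ _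
          _ = 1 + ‖s‖ := by rw [norm_one]; ring
      have h2 : ‖s‖ ^ A ≤ ‖s‖ ^ (max A 1) :=
        Real.rpow_le_rpow_of_exponent_le ht1 (le_max_left _ _)
      have h3 : ‖s‖ ≤ ‖s‖ ^ (max A 1) := by
        calc ‖s‖ = ‖s‖ ^ (1 : ℝ) := (Real.rpow_one _).symm
          _ ≤ _ := Real.rpow_le_rpow_of_exponent_le ht1 (le_max_right _ _)
      have h4 : ‖s‖ ^ (max A 1) + ‖s‖ ^ (max A 1) ≤ ‖s‖ ^ (max A 1 + 1) := by
        rw [Real.rpow_add (by linarith), Real.rpow_one]
        have : 0 ≤ ‖s‖ ^ (max A 1) := Real.rpow_nonneg (norm_nonneg s) _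
        nlinarith
      have h5 : (1 + ‖s‖) * Real.exp (‖s‖ ^ A) ≤ Real.exp (‖s‖ ^ (max A 1 + 1)) := by
        calc (1 + ‖s‖) * Real.exp (‖s‖ ^ A) ≤ Real.exp ‖s‖ * Real.exp (‖s‖ ^ A) := by
              refine mul_le_mul_of_nonneg_right ?_ (Real.exp_pos _).le
              have := Real.add_one_le_exp ‖s‖
              linarith
          _ = Real.exp (‖s‖ + ‖s‖ ^ A) := (Real.exp_add _ _).symm
          _ ≤ _ := Real.exp_le_exp.2 (by linarith)
      calc ‖G s‖ ≤ (1 + ‖s‖) * ‖G0 s‖ := h1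
        _ ≤ (1 + ‖s‖) * (|C| * Real.exp (‖s‖ ^ A)) := by
          refine mul_le_mul_of_nonneg_left ((hAC s).trans ?_) (by positivity)
          exact mul_le_mul_of_nonneg_right (le_abs_self C) (Real.exp_pos _).le
        _ = |C| * ((1 + ‖s‖) * Real.exp (‖s‖ ^ A)) := by ring
        _ ≤ |C| * Real.exp (‖s‖ ^ (max A 1 + 1)) :=
          mul_le_mul_of_nonneg_left h5 (abs_nonneg C)
        _ ≤ (|C| + |M2|) * Real.exp (‖s‖ ^ (max A 1 + 1)) := by
          refine mul_le_mul_of_nonneg_right ?_ he0.le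
          have := abs_nonneg M2
          linarith
  · refine ⟨A, |C| + |M|, fun s => ?_⟩
    have he : 1 ≤ Real.exp (‖s‖ ^ A) := Real.one_le_exp (Real.rpow_nonneg (norm_nonneg s) A)
    have he0 : 0 < Real.exp (‖s‖ ^ A) := Real.exp_pos _
    by_cases hs : ‖s - 1‖ ≤ 1
    · have h1 := hM s (by rw [Metric.mem_closedBall, dist_eq_norm]; exact hs)
      calc ‖G s‖ ≤ M := h1
        _ ≤ |C| + |M| := by
          have := le_abs_self M
          have := abs_nonneg C
          linarith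
        _ = (|C| + |M|) * 1 := (mul_one _).symm
        _ ≤ (|C| + |M|) * Real.exp (‖s‖ ^ A) := mul_le_mul_of_nonneg_left he (by positivity)
    · push Not at hs
      have hs1 : s ≠ 1 := by
        rintro rfl
        rw [sub_self, norm_zero] at hs
        linarith
      have h1 : ‖G s‖ ≤ ‖G0 s‖ := by
        rw [hGF s hs1, hG0F s hs1, norm_mul, norm_mul, norm_pow]
        refine mul_le_mul_of_nonneg_right ?_ (norm_nonneg _)
        exact le_self_pow₀ hs.le hm
      calc ‖G s‖ ≤ ‖G0 s‖ := h1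
        _ ≤ C * Real.exp (‖s‖ ^ A) := hAC s
        _ ≤ (|C| + |M|) * Real.exp (‖s‖ ^ A) := by
          refine mul_le_mul_of_nonneg_right ?_ he0.le
          have := le_abs_self C
          have := abs_nonneg M
          linarith

end Pool.Agent.H13.IP
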