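import Mathlib
import Pool.Agent.H13.IP.Defs

/-!
# IP-PB: the Dirichlet series of the twisted coefficients

PROOF. `tw_series`: `∑_n b(n/d) 1_(d | n) n^(-s) = d^(-s) ∑_n b(n) n^(-s)` for `d = 2, 4` (absolutely convergent;
reindex by the injective map `n ↦ d n`; the term at `0` is `0`), and
`1 - 3 · 2^(-s) + 2 · 4^(-s) = (1 - 2^(1-s)) (1 - 2^(-s))`. `tw_ram`: `‖tw a n‖ ≤ 6 C n^δ` (`C ≥ 0` from `n = 1`;
`n/2, n/4 ≤ n`, and they are `≥ 1` if `n ≥ 1` and `2 | n`, `4 | n`).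
-/

set_option autoImplicit false

namespace Pool.Agent.H13.IP

theorem tw_one (a : ℕ → ℂ) (h : a 1 = 1) : tw a 1 = 1 := by
  unfold tw
  rw [if_neg (by norm_num), if_neg (by norm_num), h]
  ring

private theorem dil_bd (a : ℕ → ℂ) (d : ℕ) (δ C : ℝ) (hδ : 0 < δ) (hC : 0 ≤ C)
    (ha : ∀ n : ℕ, 1 ≤ n → ‖a n‖ ≤ C * (n : ℝ) ^ δ) (n : ℕ) (hn : 1 ≤ n) :
    ‖(if d ∣ n then a (n / d) else 0 : ℂ)‖ ≤ C * (n : ℝ) ^ δ := by
  have h0 : 0 ≤ C * (n : ℝ) ^ δ := mul_nonneg hC (Real.rpow_nonneg (Nat.cast_nonneg n) δ)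
  split_ifs with h
  · have h1 : 1 ≤ n / d := Nat.div_pos (Nat.le_of_dvd hn h) (Nat.pos_of_dvd_of_pos h hn)
    refine (ha _ h1).trans (mul_le_mul_of_nonneg_left ?_ hC)
    exact Real.rpow_le_rpow (Nat.cast_nonneg _) (by exact_mod_cast Nat.div_le_self n d) hδ.le
  · rw [norm_zero]
    exact h0

theorem tw_ram (a : ℕ → ℂ)
    (ha : ∀ δ : ℝ, 0 < δ → ∃ C : ℝ, ∀ n : ℕ, 1 ≤ n → ‖a n‖ ≤ C * (n : ℝ) ^ δ) :
    ∀ δ : ℝ, 0 < δ → ∃ C : ℝ, ∀ n : ℕ, 1 ≤ n → ‖tw a n‖ ≤ C * (n : ℝ) ^ δ := by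
  intro δ hδ
  obtain ⟨C, hC⟩ := ha δ hδ
  have hC0 : 0 ≤ C := by
    have h1 := hC 1 le_rfl
    rw [Nat.cast_one, Real.one_rpow, mul_one] at h1
    exact (norm_nonneg _).trans h1
  refine ⟨6 * C, fun n hn => ?_⟩
  have h1 := hC n hn
  have h2 := dil_bd a 2 δ C hδ hC0 hC n hn
  have h4 := dil_bd a 4 δ C hδ hC0 hC n hn
  unfold tw
  have h5 : ‖a n - 3 * (if 2 ∣ n then a (n / 2) else 0) + 2 * (if 4 ∣ n then a (n / 4) else 0)‖ ≤
      ‖a n‖ + 3 * ‖(if 2 ∣ n then a (n / 2) else 0 : ℂ)‖ +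
        2 * ‖(if 4 ∣ n then a (n / 4) else 0 : ℂ)‖ := by
    refine (norm_add_le _ _).trans (add_le_add ((norm_sub_le _ _).trans (add_le_add le_rfl ?_)) ?_)
    · rw [norm_mul]
      norm_num
    · rw [norm_mul]
      norm_num
  refine h5.trans ?_
  calc ‖a n‖ + 3 * ‖(if 2 ∣ n then a (n / 2) else 0 : ℂ)‖ +
        2 * ‖(if 4 ∣ n then a (n / 4) else 0 : ℂ)‖
      ≤ C * (n : ℝ) ^ δ + 3 * (C * (n : ℝ) ^ δ) + 2 * (C * (n : ℝ) ^ δ) := by gcongr
    _ = 6 * C * (n : ℝ) ^ δ := by ring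

private theorem dil (a : ℕ → ℂ) (d : ℕ) (hd : 0 < d) (s : ℂ) (h : LSeriesSummable a s) :
    LSeriesHasSum (fun n => if d ∣ n then a (n / d) else 0) s ((d : ℂ) ^ (-s) * LSeries a s) := by
  have hinj : Function.Injective (fun n : ℕ => d * n) := fun x y hxy => Nat.eq_of_mul_eq_mul_left hd hxy
  unfold LSeriesHasSum
  rw [← hinj.hasSum_iff]
  · have h1 : HasSum (fun n => (d : ℂ) ^ (-s) * LSeries.term a s n) ((d : ℂ) ^ (-s) * LSeries a s) :=
      HasSum.mul_left _ h.LSeriesHasSum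
    have h2 : (LSeries.term (fun n => if d ∣ n then a (n / d) else 0) s ∘ fun n : ℕ => d * n) =
        fun n => (d : ℂ) ^ (-s) * LSeries.term a s n := by
      funext n
      rw [Function.comp_apply]
      by_cases h0 : n = 0
      · rw [h0, mul_zero, LSeries.term_zero, LSeries.term_zero, mul_zero]
      · have h3 : d * n ≠ 0 := Nat.mul_ne_zero hd.ne' h0
        have h4 : (d : ℂ) ≠ 0 := Nat.cast_ne_zero.2 hd.ne'
        rw [LSeries.term_of_ne_zero h3, LSeries.term_of_ne_zero h0, if_pos (dvd_mul_right d n),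
          Nat.mul_div_cancel_left n hd, Nat.cast_mul, Complex.natCast_mul_natCast_cpow,
          Complex.cpow_neg]
        have h5 : (d : ℂ) ^ s ≠ 0 := by
          rw [Ne, Complex.cpow_eq_zero_iff]
          exact fun h => h4 h.1
        have h6 : (n : ℂ) ^ s ≠ 0 := by
          rw [Ne, Complex.cpow_eq_zero_iff]
          exact fun h => h0 (by exact_mod_cast h.1)
        field_simp
    rw [h2]
    exact h1
  · intro n hn
    by_cases h0 : n = 0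
    · exact absurd ⟨0, by simp [h0]⟩ hn
    · rw [LSeries.term_of_ne_zero h0, if_neg, zero_div]
      rintro ⟨m, rfl⟩
      exact hn ⟨m, rfl⟩

theorem tw_series (a : ℕ → ℂ) (s : ℂ) (h : LSeriesSummable a s) :
    LSeriesSummable (tw a) s ∧
      LSeries (tw a) s = (1 - (2 : ℂ) ^ (1 - s)) * (1 - (2 : ℂ) ^ (-s)) * LSeries a s := by
  have h2 := dil a 2 two_pos s h
  have h4 := dil a 4 four_pos s h
  have e : tw a = a - (3 : ℂ) • (fun n => if 2 ∣ n then a (n / 2) else 0) +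
      (2 : ℂ) • (fun n => if 4 ∣ n then a (n / 4) else 0) := by
    funext n
    simp only [tw, Pi.add_apply, Pi.sub_apply, Pi.smul_apply, smul_eq_mul]
  have s1 := h.sub (h2.LSeriesSummable.smul 3)
  have s2 := h4.LSeriesSummable.smul 2
  rw [e]
  refine ⟨s1.add s2, ?_⟩
  rw [LSeries_add s1 s2, LSeries_sub h (h2.LSeriesSummable.smul 3), LSeries_smul, LSeries_smul,
    h2.LSeries_eq, h4.LSeries_eq]
  have e1 : (2 : ℂ) ^ (1 - s) = 2 * (2 : ℂ) ^ (-s) := by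
    rw [sub_eq_add_neg, Complex.cpow_add _ _ two_ne_zero, Complex.cpow_one]
  have e2 : ((4 : ℕ) : ℂ) ^ (-s) = (2 : ℂ) ^ (-s) * (2 : ℂ) ^ (-s) := by
    have h5 := Complex.natCast_mul_natCast_cpow 2 2 (-s)
    rw [← Nat.cast_mul] at h5
    norm_num at h5 ⊢
    exact h5
  rw [e1, e2]
  push_cast
  ring

end Pool.Agent.H13.IP
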