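import Mathlib
import Pool.Agent.H13.IP.Pb

/-!
# IP-PC: the functional equation of (1 - 2^(1-s)) (1 - 2^(-s)) F(s)

PROOF. `E(s) = (1 - 2^(1-s))/(s-1)` for `s ≠ 1` extends to an entire function (`dslope`,
`Differentiable.dslope`-type lemma or the removable singularity theorem; value `log 2` at `1`), and
`‖E(s)‖ ≤ C exp(‖s‖^2)`-type bound: `‖2^(1-s)‖ ≤ exp((1 + ‖s‖) log 2)`, for `‖s-1‖ ≥ 1` divide by at least one, for
`‖s-1‖ ≤ 1` compactness. Put `H s = E(s) (1 - 2^(-s)) G(s)`; for `s ≠ 1`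
`H s = (1 - 2^(1-s)) (1 - 2^(-s)) F s`. Fields of `FEq`: `diff`; `order`: the product of three such bounds
(`exp(x^A)` with a larger exponent: if `‖s‖ ≥ 3`, `x^A + x^2 + x^2 ≤ x^B` with `B` large; compare `norm_order` in
H11/SC/Norm.lean; inside a disc compactness); `summable`, `eqL`: `tw_series` and `hS.eq_LSeries`; `ram`: `tw_ram`;
`one`: `tw_one`; `Qpos`, `lampos`, `mure` (`(1-1)/2 = 0`), `eps`, `deg`, `shift`. `feq`: with
`P(s) = (1 - 2^(1-s)) (1 - 2^(-s))`: `P(1-s) = 2^(2s-1) P(s)`, `(sqrt(4N)/(2π))^s = 2^s (sqrt N/(2π))^s`, so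
`completed' H s = 2^s P(s) completed F s` and
`conj (completed' H (1 - conj s)) = 2^(1-s) P(1-s) conj (completed F (1 - conj s))` (`conj (P w) = P (conj w)`,
`conj(2^w) = 2^(conj w)`), `2^(1-s) 2^(2s-1) = 2^s`. In the strip `s ≠ 1` and `1 - conj s ≠ 1`.
-/

set_option autoImplicit false

namespace Pool.Agent.H13.IP

open Complex Pool.Agent.H11.Selberg Pool.Agent.H11.SC

private noncomputable def EE (s : ℂ) : ℂ := dslope (fun s : ℂ => 1 - (2 : ℂ) ^ (1 - s)) 1 s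

private theorem two_cpow_diff : Differentiable ℂ fun s : ℂ => (2 : ℂ) ^ s := fun s =>
  (differentiableAt_id).const_cpow (Or.inl two_ne_zero)

private theorem EE_diff : Differentiable ℂ EE := by
  have h1 : Differentiable ℂ fun s : ℂ => 1 - (2 : ℂ) ^ (1 - s) :=
    (differentiable_const _).sub (two_cpow_diff.comp ((differentiable_const _).sub differentiable_id))
  rw [← differentiableOn_univ]
  exact (Complex.differentiableOn_dslope Filter.univ_mem).2 h1.differentiableOn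

private theorem EE_ne {s : ℂ} (h : s ≠ 1) : (s - 1) * EE s = 1 - (2 : ℂ) ^ (1 - s) := by
  unfold EE
  rw [dslope_of_ne _ h, slope_def_field, sub_self, cpow_zero, sub_self, sub_zero,
    mul_div_cancel₀ _ (sub_ne_zero.2 h)]

private theorem two_norm (s : ℂ) : ‖(2 : ℂ) ^ s‖ ≤ Real.exp (‖s‖) := by
  have h1 : ‖(2 : ℂ) ^ s‖ = (2 : ℝ) ^ s.re := by
    have := norm_cpow_eq_rpow_re_of_pos (show (0 : ℝ) < 2 by norm_num) s
    simpa using this
  rw [h1, Real.rpow_def_of_pos (by norm_num)]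
  refine Real.exp_le_exp.2 ?_
  have h2 : s.re ≤ ‖s‖ := (le_abs_self _).trans (abs_re_le_norm s)
  have h3 : Real.log 2 ≤ 1 := by
    have := Real.log_two_lt_d9
    linarith
  have h4 : 0 ≤ Real.log 2 := Real.log_nonneg (by norm_num)
  calc Real.log 2 * s.re ≤ Real.log 2 * ‖s‖ := mul_le_mul_of_nonneg_left h2 h4
    _ ≤ 1 * ‖s‖ := mul_le_mul_of_nonneg_right h3 (norm_nonneg _)
    _ = ‖s‖ := one_mul _

private theorem expo_le {x A : ℝ} (hx : 3 ≤ x) : x ^ A + (3 * x + 3) ≤ x ^ (|A| + 3) := by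
  have hx1 : (1 : ℝ) ≤ x := by linarith
  have hx0 : (0 : ℝ) < x := by linarith
  have h1 : x ^ A ≤ x ^ |A| := Real.rpow_le_rpow_of_exponent_le hx1 (le_abs_self A)
  have h2 : (1 : ℝ) ≤ x ^ |A| := Real.one_le_rpow hx1 (abs_nonneg A)
  have h3 : x ^ (|A| + 3) = x ^ |A| * x ^ 3 := by
    rw [Real.rpow_add hx0]
    norm_cast
  rw [h3]
  have h4 : 1 + (3 * x + 3) ≤ x ^ 3 := by nlinarith [mul_self_nonneg (x - 3)]
  have h5 : x ^ |A| * (1 + (3 * x + 3)) ≤ x ^ |A| * x ^ 3 :=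
    mul_le_mul_of_nonneg_left h4 (by linarith)
  have h6 : (3 * x + 3) ≤ x ^ |A| * (3 * x + 3) := le_mul_of_one_le_left (by linarith) h2
  linarith

private theorem H_order {G : ℂ → ℂ} (hG : Differentiable ℂ G)
    (hGo : ∃ A C : ℝ, ∀ s, ‖G s‖ ≤ C * Real.exp (‖s‖ ^ A)) :
    ∃ A C : ℝ, ∀ s, ‖EE s * (1 - (2 : ℂ) ^ (-s)) * G s‖ ≤ C * Real.exp (‖s‖ ^ A) := by
  obtain ⟨A, C, hC⟩ := hGo
  have hC0 : 0 ≤ C := by
    have h1 := hC 0
    have h2 : 0 ≤ C * Real.exp (‖(0 : ℂ)‖ ^ A) := (norm_nonneg _).trans h1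
    exact nonneg_of_mul_nonneg_left h2 (Real.exp_pos _)
  have hcont : Continuous fun s : ℂ => EE s * (1 - (2 : ℂ) ^ (-s)) * G s := by
    refine (EE_diff.continuous.mul (continuous_const.sub ?_)).mul hG.continuous
    exact two_cpow_diff.continuous.comp continuous_neg
  obtain ⟨M, hM⟩ := (isCompact_closedBall (0 : ℂ) 3).exists_bound_of_continuousOn hcont.continuousOn
  refine ⟨|A| + 3, C + |M|, fun s => ?_⟩
  by_cases hs : ‖s‖ ≤ 3
  · have h1 : ‖EE s * (1 - (2 : ℂ) ^ (-s)) * G s‖ ≤ M := hM s (by simpa using hs)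
    have h2 : (1 : ℝ) ≤ Real.exp (‖s‖ ^ (|A| + 3)) :=
      Real.one_le_exp (Real.rpow_nonneg (norm_nonneg _) _)
    have h3 : |M| ≤ |M| * Real.exp (‖s‖ ^ (|A| + 3)) := le_mul_of_one_le_right (abs_nonneg _) h2
    have h4 : 0 ≤ C * Real.exp (‖s‖ ^ (|A| + 3)) := mul_nonneg hC0 (Real.exp_pos _).le
    have h5 := le_abs_self M
    nlinarith
  · have hs' : 3 ≤ ‖s‖ := (not_le.1 hs).le
    have h1s : 1 ≤ ‖s - 1‖ := by
      have h := norm_sub_norm_le s 1
      rw [norm_one] at h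
      linarith
    have hne : s ≠ 1 := by
      intro h
      rw [h, sub_self, norm_zero] at h1s
      linarith
    have e1 : ‖EE s‖ ≤ 2 * Real.exp (‖s‖ + 1) := by
      have h1 : ‖(s - 1) * EE s‖ ≤ 2 * Real.exp (‖s‖ + 1) := by
        rw [EE_ne hne]
        have h2 := norm_sub_le (1 : ℂ) ((2 : ℂ) ^ (1 - s))
        rw [norm_one] at h2
        have h3 := two_norm (1 - s)
        have h4 : ‖(1 : ℂ) - s‖ ≤ ‖s‖ + 1 := by
          have := norm_sub_le (1 : ℂ) s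
          rw [norm_one] at this
          linarith
        have h5 := Real.exp_le_exp.2 h4
        have h6 : (1 : ℝ) ≤ Real.exp (‖s‖ + 1) := Real.one_le_exp (by positivity)
        linarith
      rw [norm_mul] at h1
      have h7 : ‖EE s‖ ≤ ‖s - 1‖ * ‖EE s‖ := le_mul_of_one_le_left (norm_nonneg _) h1s
      linarith
    have e2 : ‖1 - (2 : ℂ) ^ (-s)‖ ≤ 2 * Real.exp (‖s‖) := by
      have h2 := norm_sub_le (1 : ℂ) ((2 : ℂ) ^ (-s))
      rw [norm_one] at h2
      have h3 := two_norm (-s)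
      rw [norm_neg] at h3
      have h6 : (1 : ℝ) ≤ Real.exp (‖s‖) := Real.one_le_exp (norm_nonneg _)
      linarith
    have e3 := hC s
    have h8 : ‖EE s * (1 - (2 : ℂ) ^ (-s)) * G s‖ ≤
        2 * Real.exp (‖s‖ + 1) * (2 * Real.exp (‖s‖)) * (C * Real.exp (‖s‖ ^ A)) := by
      rw [norm_mul, norm_mul]
      exact mul_le_mul (mul_le_mul e1 e2 (norm_nonneg _) (by positivity)) e3 (norm_nonneg _)
        (by positivity)
    have h9 : 2 * Real.exp (‖s‖ + 1) * (2 * Real.exp (‖s‖)) * (C * Real.exp (‖s‖ ^ A)) =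
        C * (4 * Real.exp (‖s‖ + 1 + ‖s‖ + ‖s‖ ^ A)) := by
      rw [Real.exp_add (‖s‖ + 1 + ‖s‖), Real.exp_add (‖s‖ + 1)]
      ring
    have h10 : 4 * Real.exp (‖s‖ + 1 + ‖s‖ + ‖s‖ ^ A) ≤ Real.exp (‖s‖ ^ (|A| + 3)) := by
      have h4 : (4 : ℝ) ≤ Real.exp 2 := by
        have h0 : (2 : ℝ) ≤ Real.exp 1 := by
          have := Real.add_one_le_exp (1 : ℝ)
          linarith
        have h01 : Real.exp 2 = Real.exp 1 * Real.exp 1 := by
          rw [← Real.exp_add]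
          norm_num
        rw [h01]
        nlinarith
      calc 4 * Real.exp (‖s‖ + 1 + ‖s‖ + ‖s‖ ^ A)
          ≤ Real.exp 2 * Real.exp (‖s‖ + 1 + ‖s‖ + ‖s‖ ^ A) :=
            mul_le_mul_of_nonneg_right h4 (Real.exp_pos _).le
        _ = Real.exp (2 + (‖s‖ + 1 + ‖s‖ + ‖s‖ ^ A)) := (Real.exp_add _ _).symm
        _ ≤ Real.exp (‖s‖ ^ (|A| + 3)) := by
            refine Real.exp_le_exp.2 ?_
            have := expo_le (x := ‖s‖) (A := A) hs'
            linarith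
    calc ‖EE s * (1 - (2 : ℂ) ^ (-s)) * G s‖ ≤ C * (4 * Real.exp (‖s‖ + 1 + ‖s‖ + ‖s‖ ^ A)) := by
          rw [← h9]
          exact h8
      _ ≤ C * Real.exp (‖s‖ ^ (|A| + 3)) := mul_le_mul_of_nonneg_left h10 hC0
      _ ≤ (C + |M|) * Real.exp (‖s‖ ^ (|A| + 3)) :=
          mul_le_mul_of_nonneg_right (by linarith [abs_nonneg M]) (Real.exp_pos _).le

private theorem conj_two (w : ℂ) : (starRingEnd ℂ) ((2 : ℂ) ^ w) = (2 : ℂ) ^ ((starRingEnd ℂ) w) := by
  have harg : (2 : ℂ).arg ≠ Real.pi := by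
    have h : (2 : ℂ) = ((2 : ℝ) : ℂ) := by norm_num
    rw [h, arg_ofReal_of_nonneg (by norm_num)]
    exact Real.pi_pos.ne
  have h := cpow_conj (2 : ℂ) w harg
  have h2 : (starRingEnd ℂ) (2 : ℂ) = 2 := by
    have h : (2 : ℂ) = ((2 : ℝ) : ℂ) := by norm_num
    rw [h, conj_ofReal]
  rw [h2] at h
  exact h.symm

private theorem P_sym (s : ℂ) : (2 : ℂ) ^ s * ((1 - (2 : ℂ) ^ (1 - s)) * (1 - (2 : ℂ) ^ (-s))) =
    (starRingEnd ℂ) ((2 : ℂ) ^ (1 - (starRingEnd ℂ) s) *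
      ((1 - (2 : ℂ) ^ (1 - (1 - (starRingEnd ℂ) s))) * (1 - (2 : ℂ) ^ (-(1 - (starRingEnd ℂ) s))))) := by
  rw [map_mul, map_mul, map_sub, map_sub, conj_two, conj_two, conj_two, map_one]
  have e1 : (starRingEnd ℂ) (1 - (starRingEnd ℂ) s) = 1 - s := by
    rw [map_sub, map_one, conj_conj]
  have e2 : (starRingEnd ℂ) (1 - (1 - (starRingEnd ℂ) s)) = s := by
    rw [map_sub, e1, map_one]
    ring
  have e3 : (starRingEnd ℂ) (-(1 - (starRingEnd ℂ) s)) = s - 1 := by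
    rw [map_neg, e1]
    ring
  rw [e1, e2, e3, cpow_sub _ _ (two_ne_zero), cpow_sub _ _ (two_ne_zero), cpow_neg, cpow_one]
  have hu : (2 : ℂ) ^ s ≠ 0 := by
    rw [Ne, cpow_eq_zero_iff]
    exact fun h => two_ne_zero h.1
  field_simp
  ring

theorem feq_tw (N : ℝ) (hN : 0 < N) (a : ℕ → ℂ) (F : ℂ → ℂ) (ε : ℂ) (hS : IsSelberg a F)
    (hε : ‖ε‖ = 1)
    (hfe : ∀ s : ℂ, 0 < s.re → s.re < 1 →
      completed (Real.sqrt N / (2 * Real.pi)) (fun _ : Fin 1 => (1 : ℝ))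
          (fun _ => (((1 : ℕ) : ℂ) - 1) / 2) F s =
        ε * (starRingEnd ℂ) (completed (Real.sqrt N / (2 * Real.pi)) (fun _ : Fin 1 => (1 : ℝ))
          (fun _ => (((1 : ℕ) : ℂ) - 1) / 2) F (1 - (starRingEnd ℂ) s)))
    (G : ℂ → ℂ) (hG : Differentiable ℂ G)
    (hGo : ∃ A C : ℝ, ∀ s, ‖G s‖ ≤ C * Real.exp (‖s‖ ^ A))
    (hGF : ∀ s, s ≠ 1 → G s = (s - 1) * F s) :
    ∃ H : ℂ → ℂ, FEq (tw a) H (Real.sqrt (4 * N) / (2 * Real.pi)) (fun _ : Fin 1 => (1 : ℝ))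
      (fun _ => (((1 : ℕ) : ℂ) - 1) / 2) ε := by
  have hHF : ∀ s, s ≠ 1 → EE s * (1 - (2 : ℂ) ^ (-s)) * G s =
      (1 - (2 : ℂ) ^ (1 - s)) * (1 - (2 : ℂ) ^ (-s)) * F s := by
    intro s hs
    rw [hGF s hs, ← EE_ne hs]
    ring
  have hsq : Real.sqrt (4 * N) = 2 * Real.sqrt N := by
    rw [Real.sqrt_mul (by norm_num)]
    congr 1
    rw [show (4 : ℝ) = 2 ^ 2 by norm_num]
    exact Real.sqrt_sq (by norm_num)
  have hQ : Real.sqrt (4 * N) / (2 * Real.pi) = 2 * (Real.sqrt N / (2 * Real.pi)) := by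
    rw [hsq]
    ring
  have hQ0 : 0 < Real.sqrt N / (2 * Real.pi) :=
    div_pos (Real.sqrt_pos.2 hN) (by positivity)
  have hcomp : ∀ s, s ≠ 1 → completed (Real.sqrt (4 * N) / (2 * Real.pi)) (fun _ : Fin 1 => (1 : ℝ))
      (fun _ => (((1 : ℕ) : ℂ) - 1) / 2) (fun s => EE s * (1 - (2 : ℂ) ^ (-s)) * G s) s =
      ((2 : ℂ) ^ s * ((1 - (2 : ℂ) ^ (1 - s)) * (1 - (2 : ℂ) ^ (-s)))) *
        completed (Real.sqrt N / (2 * Real.pi)) (fun _ : Fin 1 => (1 : ℝ))
          (fun _ => (((1 : ℕ) : ℂ) - 1) / 2) F s := by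
    intro s hs
    unfold completed
    have h1 : ((Real.sqrt (4 * N) / (2 * Real.pi) : ℝ) : ℂ) ^ s =
        (2 : ℂ) ^ s * ((Real.sqrt N / (2 * Real.pi) : ℝ) : ℂ) ^ s := by
      rw [hQ, ofReal_mul, mul_cpow_ofReal_nonneg (by norm_num) hQ0.le]
      norm_num
    rw [h1]
    simp only [hHF s hs]
    ring
  refine ⟨fun s => EE s * (1 - (2 : ℂ) ^ (-s)) * G s, ?_⟩
  exact
    { diff := by
        refine (EE_diff.mul ((differentiable_const _).sub ?_)).mul hG
        exact two_cpow_diff.comp differentiable_neg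
      order := H_order hG hGo
      summable := fun s hs => (tw_series a s (hS.summable s hs)).1
      eqL := by
        intro s hs
        have hne : s ≠ 1 := by
          rintro rfl
          simp at hs
        rw [(tw_series a s (hS.summable s hs)).2, ← hS.eq_LSeries s hs]
        exact hHF s hne
      ram := tw_ram a hS.ramanujan
      one := tw_one a hS.one
      Qpos := by
        rw [hQ]
        positivity
      lampos := fun _ => one_pos
      mure := fun _ => by simp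
      eps := hε
      feq := by
        intro s hs0 hs1
        have hne : s ≠ 1 := by
          rintro rfl
          simp at hs1
        have hne' : 1 - (starRingEnd ℂ) s ≠ 1 := by
          intro h
          have h2 := congrArg Complex.re h
          simp at h2
          linarith
        rw [hcomp s hne, hcomp _ hne', map_mul, P_sym s]
        have h3 := hfe s hs0 hs1
        refine Eq.trans ?_ (mul_left_comm _ _ _)
        rw [← h3]
      deg := by simp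
      shift := by simp }

end Pool.Agent.H13.IP
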