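import Mathlib
import Pool.Agent.H13.IP.Defs
import Pool.Agent.H11.PE.PDOF0

/-!
# IP-PD: comparison of the two Rankin-Selberg series

PROOF. `a` is multiplicative (`(pd0_of a F hS 0).mul`, `n^(-(0*I)) = 1`). Every `n ≥ 1` is `2^l n'` with `n'` odd,
so (nonnegative terms, absolutely convergent for `s > 1` by the Ramanujan bound; `a(0)^2/0^s = 0`)
`∑_n ‖a n‖^2 n^(-s) = (∑_l ‖a(2^l)‖^2 2^(-ls)) (∑_(n' odd) ‖a n'‖^2 n'^(-s))`, the first factor is at most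
`C1^2 ∑_l 2^(l/4) 2^(-l)` (Ramanujan with exponent `1/8`, `s ≥ 1`). For odd `n'`: `tw a n' = a n'`, so the second
factor is at most `∑_n ‖tw a n‖^2 n^(-s)` (summable, again by the Ramanujan bound). For the first step it is
enough to bound the sum over `n` by the double sum over `(l, n')` via the injection
`n ↦ (padicValNat 2 n, n / 2^(padicValNat 2 n))` (`Nat.exists_eq_two_pow_mul_odd`, `Summable.tsum_le_of..`,
`tsum_le_tsum_of_inj`, or finite partial sums).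
-/

set_option autoImplicit false

namespace Pool.Agent.H13.IP

open Pool.Agent.H11.Selberg

private theorem pair_inj : Function.Injective (fun x : ℕ × ℕ => 2 ^ x.1 * (2 * x.2 + 1)) := by
  have key : ∀ l m l' m' : ℕ, l < l' → 2 ^ l * (2 * m + 1) ≠ 2 ^ l' * (2 * m' + 1) := by
    intro l m l' m' hl h
    obtain ⟨d, rfl⟩ : ∃ d, l' = l + (d + 1) := ⟨l' - l - 1, by omega⟩
    rw [pow_add, mul_assoc] at h
    have h2 := Nat.eq_of_mul_eq_mul_left (pow_pos two_pos l) h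
    have h3 : 2 ^ (d + 1) * (2 * m' + 1) = 2 * (2 ^ d * (2 * m' + 1)) := by ring
    omega
  rintro ⟨l, m⟩ ⟨l', m'⟩ h
  have h' : 2 ^ l * (2 * m + 1) = 2 ^ l' * (2 * m' + 1) := h
  rcases lt_trichotomy l l' with hl | hl | hl
  · exact absurd h' (key _ _ _ _ hl)
  · subst hl
    have h4 := Nat.eq_of_mul_eq_mul_left (pow_pos two_pos l) h'
    have h5 : m = m' := by omega
    rw [h5]
  · exact absurd h'.symm (key _ _ _ _ hl)

private theorem tw_summable (a : ℕ → ℂ)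
    (hram : ∀ ε : ℝ, 0 < ε → ∃ C : ℝ, ∀ n : ℕ, 1 ≤ n → ‖a n‖ ≤ C * (n : ℝ) ^ ε) {s : ℝ}
    (hs : 1 < s) : Summable fun n : ℕ => ‖tw a n‖ ^ 2 / (n : ℝ) ^ s := by
  obtain ⟨ε, hε, hε2⟩ : ∃ ε : ℝ, 0 < ε ∧ 1 < s - 2 * ε := ⟨(s - 1) / 4, by linarith, by linarith⟩
  obtain ⟨C, hC⟩ := hram ε hε
  have hC0 : 0 ≤ C := by
    have := hC 1 le_rfl
    rw [Nat.cast_one, Real.one_rpow, mul_one] at this
    exact (norm_nonneg _).trans this
  have hb : ∀ n m : ℕ, 1 ≤ m → m ≤ n → ‖a m‖ ≤ C * (n : ℝ) ^ ε := by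
    intro n m hm hmn
    refine (hC m hm).trans (mul_le_mul_of_nonneg_left ?_ hC0)
    exact Real.rpow_le_rpow (Nat.cast_nonneg m) (by exact_mod_cast hmn) hε.le
  have h1 : Summable fun n : ℕ => (36 * C ^ 2) * (1 / (n : ℝ) ^ (s - 2 * ε)) :=
    (Real.summable_one_div_nat_rpow.2 hε2).mul_left _
  refine Summable.of_nonneg_of_le (fun n => by positivity) (fun n => ?_) h1
  rcases Nat.eq_zero_or_pos n with rfl | hn
  · rw [Nat.cast_zero, Real.zero_rpow (by linarith), div_zero]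
    positivity
  · have hn0 : (0 : ℝ) < n := by exact_mod_cast hn
    have hD : 0 ≤ C * (n : ℝ) ^ ε := by positivity
    have h2 : ‖tw a n‖ ≤ 6 * (C * (n : ℝ) ^ ε) := by
      unfold tw
      have e1 : ‖(3 : ℂ) * (if 2 ∣ n then a (n / 2) else 0)‖ ≤ 3 * (C * (n : ℝ) ^ ε) := by
        rw [norm_mul]
        have : ‖(3 : ℂ)‖ = 3 := by norm_num
        rw [this]
        refine mul_le_mul_of_nonneg_left ?_ (by norm_num)
        split_ifs with h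
        · obtain ⟨k, rfl⟩ := h
          exact hb _ _ (by omega) (by omega)
        · rw [norm_zero]
          exact hD
      have e2 : ‖(2 : ℂ) * (if 4 ∣ n then a (n / 4) else 0)‖ ≤ 2 * (C * (n : ℝ) ^ ε) := by
        rw [norm_mul]
        have : ‖(2 : ℂ)‖ = 2 := by norm_num
        rw [this]
        refine mul_le_mul_of_nonneg_left ?_ (by norm_num)
        split_ifs with h
        · obtain ⟨k, rfl⟩ := h
          exact hb _ _ (by omega) (by omega)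
        · rw [norm_zero]
          exact hD
      have e3 := hb n n hn le_rfl
      calc _ ≤ ‖a n - 3 * (if 2 ∣ n then a (n / 2) else 0)‖ +
            ‖(2 : ℂ) * (if 4 ∣ n then a (n / 4) else 0)‖ := norm_add_le _ _
        _ ≤ (‖a n‖ + ‖(3 : ℂ) * (if 2 ∣ n then a (n / 2) else 0)‖) +
            ‖(2 : ℂ) * (if 4 ∣ n then a (n / 4) else 0)‖ := by
            gcongr
            exact norm_sub_le _ _
        _ ≤ 6 * (C * (n : ℝ) ^ ε) := by linarith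
    have h3 : ‖tw a n‖ ^ 2 ≤ (6 * (C * (n : ℝ) ^ ε)) ^ 2 := by gcongr
    have h4 : (n : ℝ) ^ (s - 2 * ε) = (n : ℝ) ^ s / ((n : ℝ) ^ ε) ^ 2 := by
      rw [Real.rpow_sub hn0, ← Real.rpow_natCast ((n : ℝ) ^ ε) 2, ← Real.rpow_mul hn0.le]
      norm_num [mul_comm]
    have h5 : 0 < (n : ℝ) ^ s := by positivity
    have h6 : 0 < (n : ℝ) ^ ε := by positivity
    rw [h4]
    calc ‖tw a n‖ ^ 2 / (n : ℝ) ^ s ≤ (6 * (C * (n : ℝ) ^ ε)) ^ 2 / (n : ℝ) ^ s := by gcongr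
      _ = _ := by
        field_simp
        ring

private theorem pd0_of_mul (a : ℕ → ℂ) (F : ℂ → ℂ) (hS : IsSelberg a F) :
    ∀ m n : ℕ, Nat.Coprime m n → a (m * n) = a m * a n := by
  intro m n h
  have h1 := (Pool.Agent.H11.PE.pd0_of a F hS 0).mul m n h
  simpa using h1

theorem D_comp (a : ℕ → ℂ) (F : ℂ → ℂ) (hS : IsSelberg a F) :
    ∃ C : ℝ, 0 < C ∧ ∀ s : ℝ, 1 < s → s ≤ 2 →
      ∑' n : ℕ, ‖a n‖ ^ 2 / (n : ℝ) ^ s ≤ C * ∑' n : ℕ, ‖tw a n‖ ^ 2 / (n : ℝ) ^ s := by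
  have hP := (pd0_of_mul a F hS)
  obtain ⟨C1, hC1⟩ := hS.ramanujan (1 / 8) (by norm_num)
  obtain ⟨r, hr⟩ : ∃ r : ℝ, r = (2 : ℝ) ^ (-(3 / 4) : ℝ) := ⟨_, rfl⟩
  have hr0 : 0 ≤ r := by rw [hr]; positivity
  have hr1 : r < 1 := by
    rw [hr]
    exact Real.rpow_lt_one_of_one_lt_of_neg (by norm_num) (by norm_num)
  have hgeo : Summable fun l : ℕ => C1 ^ 2 * r ^ l := (summable_geometric_of_lt_one hr0 hr1).mul_left _
  refine ⟨(∑' l : ℕ, C1 ^ 2 * r ^ l) + 1, ?_, fun s hs hs2 => ?_⟩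
  · have : 0 ≤ ∑' l : ℕ, C1 ^ 2 * r ^ l := tsum_nonneg fun l => by positivity
    linarith
  have hR := tw_summable a hS.ramanujan hs
  have hR0 : 0 ≤ ∑' n : ℕ, ‖tw a n‖ ^ 2 / (n : ℝ) ^ s := tsum_nonneg fun n => by positivity
  -- the odd part
  have hodd : ∀ m : ℕ, tw a (2 * m + 1) = a (2 * m + 1) := by
    intro m
    unfold tw
    rw [if_neg (by omega), if_neg (by omega)]
    ring
  have hinj2 : Function.Injective fun m : ℕ => 2 * m + 1 := by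
    intro m m' h
    have h' : 2 * m + 1 = 2 * m' + 1 := h
    omega
  have hg2 : Summable fun m : ℕ => ‖a (2 * m + 1)‖ ^ 2 / ((2 * m + 1 : ℕ) : ℝ) ^ s := by
    have h1 := hR.comp_injective hinj2
    refine h1.congr fun m => ?_
    show ‖tw a (2 * m + 1)‖ ^ 2 / ((2 * m + 1 : ℕ) : ℝ) ^ s = _
    rw [hodd]
  have hg2le : ∑' m : ℕ, ‖a (2 * m + 1)‖ ^ 2 / ((2 * m + 1 : ℕ) : ℝ) ^ s ≤
      ∑' n : ℕ, ‖tw a n‖ ^ 2 / (n : ℝ) ^ s := by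
    refine hg2.tsum_le_tsum_of_inj (fun m : ℕ => 2 * m + 1) hinj2 (fun n _ => by positivity)
      (fun m => ?_) hR
    show _ ≤ ‖tw a (2 * m + 1)‖ ^ 2 / ((2 * m + 1 : ℕ) : ℝ) ^ s
    rw [hodd]
  -- the powers of two
  have hg1b : ∀ l : ℕ, ‖a (2 ^ l)‖ ^ 2 / ((2 ^ l : ℕ) : ℝ) ^ s ≤ C1 ^ 2 * r ^ l := by
    intro l
    have h0 : (0 : ℝ) < (2 : ℝ) ^ l := by positivity
    have h1 := hC1 (2 ^ l) (Nat.one_le_two_pow)
    rw [Nat.cast_pow, Nat.cast_ofNat] at h1 ⊢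
    have h2 : (2 : ℝ) ^ l ≤ ((2 : ℝ) ^ l) ^ s := by
      calc (2 : ℝ) ^ l = ((2 : ℝ) ^ l) ^ (1 : ℝ) := (Real.rpow_one _).symm
        _ ≤ ((2 : ℝ) ^ l) ^ s := Real.rpow_le_rpow_of_exponent_le (one_le_pow₀ (by norm_num)) hs.le
    have h3 : ‖a (2 ^ l)‖ ^ 2 ≤ (C1 * ((2 : ℝ) ^ l) ^ (1 / 8 : ℝ)) ^ 2 := by gcongr
    have h4 : r ^ l = (((2 : ℝ) ^ l) ^ (1 / 8 : ℝ)) ^ 2 / (2 : ℝ) ^ l := by
      rw [hr, eq_div_iff h0.ne', ← Real.rpow_natCast (_ ^ (1 / 8 : ℝ)) 2, ← Real.rpow_mul h0.le,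
        ← Real.rpow_natCast (2 : ℝ) l, ← Real.rpow_mul (by norm_num), ← Real.rpow_natCast,
        ← Real.rpow_mul (by norm_num), ← Real.rpow_add (by norm_num)]
      congr 1
      push_cast
      ring
    calc ‖a (2 ^ l)‖ ^ 2 / ((2 : ℝ) ^ l) ^ s ≤ (C1 * ((2 : ℝ) ^ l) ^ (1 / 8 : ℝ)) ^ 2 / (2 : ℝ) ^ l := by
          gcongr
      _ = _ := by
          rw [h4, mul_pow, mul_div_assoc]
  have hg1 : Summable fun l : ℕ => ‖a (2 ^ l)‖ ^ 2 / ((2 ^ l : ℕ) : ℝ) ^ s :=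
    Summable.of_nonneg_of_le (fun l => by positivity) hg1b hgeo
  have hg1le : ∑' l : ℕ, ‖a (2 ^ l)‖ ^ 2 / ((2 ^ l : ℕ) : ℝ) ^ s ≤ ∑' l : ℕ, C1 ^ 2 * r ^ l :=
    hg1.tsum_le_tsum hg1b hgeo
  -- the product
  have hsupp : Function.support (fun n : ℕ => ‖a n‖ ^ 2 / (n : ℝ) ^ s) ⊆
      Set.range (fun x : ℕ × ℕ => 2 ^ x.1 * (2 * x.2 + 1)) := by
    intro n hn
    have hn0 : n ≠ 0 := by
      rintro rfl
      apply hn
      show ‖a 0‖ ^ 2 / ((0 : ℕ) : ℝ) ^ s = 0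
      rw [Nat.cast_zero, Real.zero_rpow (by linarith), div_zero]
    obtain ⟨k, m, ⟨j, hj⟩, hm⟩ := Nat.exists_eq_two_pow_mul_odd hn0
    refine ⟨(k, j), ?_⟩
    show 2 ^ k * (2 * j + 1) = n
    rw [hm, hj]
  have hprod : ∀ x : ℕ × ℕ, ‖a (2 ^ x.1 * (2 * x.2 + 1))‖ ^ 2 /
      ((2 ^ x.1 * (2 * x.2 + 1) : ℕ) : ℝ) ^ s =
      (‖a (2 ^ x.1)‖ ^ 2 / ((2 ^ x.1 : ℕ) : ℝ) ^ s) *
        (‖a (2 * x.2 + 1)‖ ^ 2 / ((2 * x.2 + 1 : ℕ) : ℝ) ^ s) := by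
    intro x
    have hcop : Nat.Coprime (2 ^ x.1) (2 * x.2 + 1) := by
      apply Nat.Coprime.pow_left
      rw [Nat.coprime_two_left]
      exact ⟨x.2, rfl⟩
    rw [hP _ _ hcop, norm_mul, mul_pow, Nat.cast_mul,
      Real.mul_rpow (Nat.cast_nonneg _) (Nat.cast_nonneg _), mul_div_mul_comm]
  have heq : ∑' n : ℕ, ‖a n‖ ^ 2 / (n : ℝ) ^ s =
      (∑' l : ℕ, ‖a (2 ^ l)‖ ^ 2 / ((2 ^ l : ℕ) : ℝ) ^ s) *
        ∑' m : ℕ, ‖a (2 * m + 1)‖ ^ 2 / ((2 * m + 1 : ℕ) : ℝ) ^ s := by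
    rw [tsum_mul_tsum_of_summable_norm hg1.norm hg2.norm, ← pair_inj.tsum_eq hsupp]
    exact tsum_congr hprod
  rw [heq]
  have hg2n : 0 ≤ ∑' m : ℕ, ‖a (2 * m + 1)‖ ^ 2 / ((2 * m + 1 : ℕ) : ℝ) ^ s :=
    tsum_nonneg fun m => by positivity
  have hg1n : 0 ≤ ∑' l : ℕ, C1 ^ 2 * r ^ l := tsum_nonneg fun l => by positivity
  calc _ ≤ (∑' l : ℕ, C1 ^ 2 * r ^ l) * ∑' n : ℕ, ‖tw a n‖ ^ 2 / (n : ℝ) ^ s :=
        mul_le_mul hg1le hg2le hg2n hg1n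
    _ ≤ _ := by nlinarith

end Pool.Agent.H13.IP
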