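import Mathlib
import Pool.Agent.H13.IP.Defs
import Pool.Agent.H13.IC.Fj
import Pool.Agent.H99.NR.Asm

/-!
# IP-PE: arithmetic of the twisted coefficients
-/

set_option autoImplicit false

namespace Pool.Agent.H13.IP

open Pool.Agent.H13.IC Pool.Agent.H99.NR

theorem map_tw {R R' : Type} [Ring R] [Ring R'] (φ : R →+* R') (A : ℕ → R) (n : ℕ) :
    φ (tw A n) = tw (fun n => φ (A n)) n := by
  unfold tw
  rw [map_add, map_sub, map_mul, map_mul, map_ofNat, map_ofNat]
  congr 2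
  · congr 2
    split_ifs
    · rfl
    · exact map_zero φ
  · split_ifs
    · rfl
    · exact map_zero φ

theorem acl_one {L : Type} [Field L] (A : ℕ → L) (σ : L →+* ℂ) :
    acl 1 A σ = fun n => σ (A n) := by
  funext n
  unfold acl
  have h : (-((((1 : ℕ) : ℂ) - 1) / 2)) = 0 := by simp
  rw [h, Complex.cpow_zero, mul_one]

theorem acl_tw {L : Type} [Field L] (A : ℕ → L) (σ : L →+* ℂ) :
    acl 1 (tw A) σ = tw (acl 1 A σ) := by
  rw [acl_one, acl_one]
  funext n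
  exact map_tw σ A n

theorem int_tw {L : Type} [Field L] (A : ℕ → L) (m : ℕ)
    (hA : ∀ n, 1 ≤ n → IsIntegral ℤ ((m : L) * A n)) :
    ∀ n, 1 ≤ n → IsIntegral ℤ ((m : L) * tw A n) := by
  intro n hn
  have h2 : IsIntegral ℤ ((m : L) * (if 2 ∣ n then A (n / 2) else 0)) := by
    split_ifs with h
    · exact hA _ (Nat.div_pos (Nat.le_of_dvd hn h) (by norm_num))
    · rw [mul_zero]
      exact isIntegral_zero
  have h4 : IsIntegral ℤ ((m : L) * (if 4 ∣ n then A (n / 4) else 0)) := by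
    split_ifs with h
    · exact hA _ (Nat.div_pos (Nat.le_of_dvd hn h) (by norm_num))
    · rw [mul_zero]
      exact isIntegral_zero
  have h3' : IsIntegral ℤ (3 : L) := by
    have := isIntegral_algebraMap (R := ℤ) (A := L) (x := 3)
    simpa using this
  have h2' : IsIntegral ℤ (2 : L) := by
    have := isIntegral_algebraMap (R := ℤ) (A := L) (x := 2)
    simpa using this
  have h := ((hA n hn).sub (h3'.mul h2)).add (h2'.mul h4)
  have e : (m : L) * tw A n = (m : L) * A n - 3 * ((m : L) * (if 2 ∣ n then A (n / 2) else 0)) +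
      2 * ((m : L) * (if 4 ∣ n then A (n / 4) else 0)) := by
    unfold tw
    ring
  rw [e]
  exact h

theorem polG_tw {L : Type} [Field L] (A : ℕ → L) (hs : PolG A) : PolG (tw A) := by
  obtain ⟨C, q, hC⟩ := hs
  refine ⟨6 * |C|, q, fun τ n hn => ?_⟩
  have hn0 : (0 : ℝ) ≤ (n : ℝ) := Nat.cast_nonneg n
  have hb : ∀ d : ℕ, 1 ≤ d → d ∣ n → ‖τ (A (n / d))‖ ≤ |C| * (n : ℝ) ^ q := by
    intro d hd hdn
    have h1 : 1 ≤ n / d := Nat.div_pos (Nat.le_of_dvd hn hdn) hd
    refine (hC τ _ h1).trans ?_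
    refine mul_le_mul (le_abs_self C) ?_ (by positivity) (abs_nonneg C)
    refine pow_le_pow_left₀ (Nat.cast_nonneg _) ?_ q
    exact_mod_cast Nat.div_le_self n d
  have hp : 0 ≤ |C| * (n : ℝ) ^ q := by positivity
  have h1 : ‖τ (A n)‖ ≤ |C| * (n : ℝ) ^ q := by
    have := hb 1 le_rfl (one_dvd n)
    rwa [Nat.div_one] at this
  have h2 : ‖(if 2 ∣ n then τ (A (n / 2)) else 0)‖ ≤ |C| * (n : ℝ) ^ q := by
    split_ifs with h
    · exact hb 2 (by norm_num) h
    · rw [norm_zero]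
      exact hp
  have h4 : ‖(if 4 ∣ n then τ (A (n / 4)) else 0)‖ ≤ |C| * (n : ℝ) ^ q := by
    split_ifs with h
    · exact hb 4 (by norm_num) h
    · rw [norm_zero]
      exact hp
  rw [map_tw]
  unfold tw
  calc ‖τ (A n) - 3 * (if 2 ∣ n then τ (A (n / 2)) else 0) +
        2 * (if 4 ∣ n then τ (A (n / 4)) else 0)‖
      ≤ ‖τ (A n)‖ + ‖(3 : ℂ) * (if 2 ∣ n then τ (A (n / 2)) else 0)‖ +
        ‖(2 : ℂ) * (if 4 ∣ n then τ (A (n / 4)) else 0)‖ :=
        (norm_add_le _ _).trans (add_le_add (norm_sub_le _ _) le_rfl)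
    _ ≤ |C| * (n : ℝ) ^ q + 3 * (|C| * (n : ℝ) ^ q) + 2 * (|C| * (n : ℝ) ^ q) := by
        rw [norm_mul, norm_mul]
        have e3 : ‖(3 : ℂ)‖ = 3 := by norm_num
        have e2 : ‖(2 : ℂ)‖ = 2 := by norm_num
        rw [e3, e2]
        gcongr
    _ = 6 * |C| * (n : ℝ) ^ q := by ring

end Pool.Agent.H13.IP
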