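import Mathlib
import Pool.Agent.H11.Selberg.Defs
import Pool.Agent.H11.PE.RDefs

/-!
# IP-PF: from the sum T(u) to S(x)

PROOF. `x ≥ 16`, `u = 1/log x`: `log 16 > 2` (`log 16 = 4 log 2`, `log 2 > 0.69`), so `0 < u ≤ 1/2`. For `p ≤ x`:
`p^(-(1+u)) ≥ p^(-1) x^(-u) = p^(-1) e^(-1)`. So `S a x ≤ e T a u ≤ e (2 log log x + K)` (`S` is a finite sum over
primes in `[1, floor x]`; `T` is a sum over `Nat.Primes`, summable by the Ramanujan bound with a small exponent,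
nonnegative terms: `Summable.sum_le_tsum` after mapping the finite set of primes). `log log x ≥ 1` for
`x ≥ 16` (`log 16 > 2.77 > e`: `Real.exp_one_lt_d9`; compare `ps_log16` in H11/PC/PSUM.lean), so
`S a x ≤ e (2 + |K|) log log x`.
-/

set_option autoImplicit false

namespace Pool.Agent.H13.IP

open Pool.Agent.H11.Selberg Pool.Agent.H11.PE

theorem S_of_T (a : ℕ → ℂ)
    (ha : ∀ δ : ℝ, 0 < δ → ∃ C : ℝ, ∀ n : ℕ, 1 ≤ n → ‖a n‖ ≤ C * (n : ℝ) ^ δ) (K : ℝ)
    (hT : ∀ u : ℝ, 0 < u → u ≤ 1 / 2 → T a u ≤ 2 * Real.log (1 / u) + K) :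
    ∃ C : ℝ, ∀ x : ℝ, 16 ≤ x → S a x ≤ C * Real.log (Real.log x) := by
  refine ⟨Real.exp 1 * (2 + |K|), fun x hx => ?_⟩
  have hl16 : (2.77 : ℝ) < Real.log 16 := by
    have h1 : Real.log 16 = 4 * Real.log 2 := by
      rw [show (16 : ℝ) = 2 ^ 4 by norm_num, Real.log_pow]
      norm_num
    have h2 := Real.log_two_gt_d9
    linarith
  have hlx : (2.77 : ℝ) < Real.log x := hl16.trans_le (Real.log_le_log (by norm_num) hx)
  have hlx0 : 0 < Real.log x := by linarith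
  have hx0 : 0 < x := by linarith
  have hll : 1 < Real.log (Real.log x) := by
    rw [Real.lt_log_iff_exp_lt hlx0]
    have h3 := Real.exp_one_lt_d9
    linarith
  obtain ⟨u, hu⟩ : ∃ u, u = 1 / Real.log x := ⟨_, rfl⟩
  have hu0 : 0 < u := by rw [hu]; positivity
  have hu2 : u ≤ 1 / 2 := by
    rw [hu]
    exact one_div_le_one_div_of_le (by norm_num) (by linarith)
  have hTu := hT u hu0 hu2
  have h1u : 1 / u = Real.log x := by rw [hu, one_div_one_div]
  rw [h1u] at hTu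
  -- summability
  obtain ⟨C, hC⟩ := ha (u / 4) (by positivity)
  have hsum : Summable fun p : Nat.Primes => ‖a (p : ℕ)‖ ^ 2 * ((p : ℕ) : ℝ) ^ (-(1 + u)) := by
    have h1 : Summable fun p : Nat.Primes => C ^ 2 * ((p : ℕ) : ℝ) ^ (-(1 + u / 2)) :=
      (Nat.Primes.summable_rpow.2 (by linarith)).mul_left _
    refine Summable.of_nonneg_of_le (fun p => by positivity) (fun p => ?_) h1
    have hp0 : (0 : ℝ) < ((p : ℕ) : ℝ) := by exact_mod_cast p.2.pos
    have h2 := hC p p.2.one_lt.le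
    have h3 : ‖a (p : ℕ)‖ ^ 2 ≤ (C * ((p : ℕ) : ℝ) ^ (u / 4)) ^ 2 := by gcongr
    calc ‖a (p : ℕ)‖ ^ 2 * ((p : ℕ) : ℝ) ^ (-(1 + u)) ≤
          (C * ((p : ℕ) : ℝ) ^ (u / 4)) ^ 2 * ((p : ℕ) : ℝ) ^ (-(1 + u)) := by gcongr
      _ = C ^ 2 * ((p : ℕ) : ℝ) ^ (-(1 + u / 2)) := by
          rw [mul_pow, mul_assoc, ← Real.rpow_natCast (((p : ℕ) : ℝ) ^ (u / 4)) 2,
            ← Real.rpow_mul hp0.le, ← Real.rpow_add hp0]
          congr 2
          push_cast
          ring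
  have hS : S a x ≤ Real.exp 1 * T a u := by
    unfold S T
    rw [← Finset.sum_subtype_eq_sum_filter, ← hsum.tsum_mul_left]
    refine le_trans (Finset.sum_le_sum fun p hp => ?_)
      (Summable.sum_le_tsum (L := SummationFilter.unconditional Nat.Primes)
        ((Finset.Icc 1 ⌊x⌋₊).subtype Nat.Prime) (fun p _ => by positivity)
        (hsum.mul_left (Real.exp 1)))
    have hpx : ((p : ℕ) : ℝ) ≤ x := by
      rw [Finset.mem_subtype, Finset.mem_Icc] at hp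
      exact (Nat.le_floor_iff hx0.le).1 hp.2
    have hp0 : (0 : ℝ) < ((p : ℕ) : ℝ) := by exact_mod_cast p.2.pos
    have h5 : Real.exp 1 * ((p : ℕ) : ℝ) ^ (-(1 + u)) ≥ 1 / ((p : ℕ) : ℝ) := by
      have h6 : ((p : ℕ) : ℝ) ^ (-(1 + u)) = 1 / ((p : ℕ) : ℝ) * ((p : ℕ) : ℝ) ^ (-u) := by
        rw [show -(1 + u) = -1 + -u by ring, Real.rpow_add hp0, Real.rpow_neg_one, one_div]
      have h7 : Real.exp (-1) ≤ ((p : ℕ) : ℝ) ^ (-u) := by
        rw [Real.rpow_def_of_pos hp0]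
        apply Real.exp_le_exp.2
        have h8 : Real.log ((p : ℕ) : ℝ) ≤ Real.log x := Real.log_le_log hp0 hpx
        have h9 : u * Real.log x = 1 := by rw [hu, one_div, inv_mul_cancel₀ hlx0.ne']
        have h10 := mul_le_mul_of_nonneg_left h8 hu0.le
        linarith
      rw [h6]
      have h11 : Real.exp 1 * Real.exp (-1) = 1 := by rw [← Real.exp_add]; simp
      have h12 : 0 < 1 / ((p : ℕ) : ℝ) := by positivity
      calc Real.exp 1 * (1 / ((p : ℕ) : ℝ) * ((p : ℕ) : ℝ) ^ (-u)) ≥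
            Real.exp 1 * (1 / ((p : ℕ) : ℝ) * Real.exp (-1)) := by gcongr
        _ = 1 / ((p : ℕ) : ℝ) * (Real.exp 1 * Real.exp (-1)) := by ring
        _ = 1 / ((p : ℕ) : ℝ) := by rw [h11, mul_one]
    calc ‖a (p : ℕ)‖ ^ 2 / ((p : ℕ) : ℝ) = ‖a (p : ℕ)‖ ^ 2 * (1 / ((p : ℕ) : ℝ)) := by ring
      _ ≤ ‖a (p : ℕ)‖ ^ 2 * (Real.exp 1 * ((p : ℕ) : ℝ) ^ (-(1 + u))) := by gcongr
      _ = _ := by ring
  have hfin : 2 * Real.log (Real.log x) + K ≤ (2 + |K|) * Real.log (Real.log x) := by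
    have h1 := le_abs_self K
    have h2 : |K| ≤ |K| * Real.log (Real.log x) := le_mul_of_one_le_right (abs_nonneg K) hll.le
    linarith
  calc S a x ≤ Real.exp 1 * T a u := hS
    _ ≤ Real.exp 1 * ((2 + |K|) * Real.log (Real.log x)) := by
        gcongr
        exact hTu.trans hfin
    _ = _ := by ring

end Pool.Agent.H13.IP
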