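import Mathlib
import Pool.Agent.H13.IP.Pa
import Pool.Agent.H13.IP.Pc
import Pool.Agent.H13.IP.Pd
import Pool.Agent.H13.IP.Pe
import Pool.Agent.H13.IP.Pf
import Pool.Agent.H97.ICB.Fj1
import Pool.Agent.H97.ICW.Up
import Pool.Agent.H97.ICW.Te
import Pool.Agent.H11.SC6.PrimDef
import Pool.Agent.H11.PC.ASM

/-!
# IP-PG: THEOREM IC in weight one: a primitive element has no pole
-/

set_option autoImplicit false

namespace Pool.Agent.H13.IP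

open Complex NumberField UpperHalfPlane MatrixGroups Pool.Agent.H11.Selberg Pool.Agent.H11.SC
open Pool.Agent.H13.IC Pool.Agent.H97.ICB Pool.Agent.H97.ICW Pool.Agent.H99.NR

/-- the Rankin-Selberg series has at most a double pole -/
theorem D_two {L : Type} [Field L] [NumberField L] (σ : L →+* ℂ) (N : ℝ) (hN : 0 < N)
    (A : ℕ → L) (m : ℕ) (hm : 1 ≤ m) (hA : ∀ n, 1 ≤ n → IsIntegral ℤ ((m : L) * A n))
    (hs : PolG A) (H : ℂ → ℂ) (ε : ℂ) (hε : ‖ε‖ = 1)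
    (hH : FEq (acl 1 A σ) H (Real.sqrt N / (2 * Real.pi)) (fun _ : Fin 1 => (1 : ℝ))
      (fun _ => (((1 : ℕ) : ℂ) - 1) / 2) ε) :
    ∃ C : ℝ, ∀ s : ℝ, 1 < s → s ≤ 2 →
      ∑' n : ℕ, ‖acl 1 A σ n‖ ^ 2 / (n : ℝ) ^ s ≤ C * (s - 1) ^ (-(2 : ℝ)) := by
  obtain ⟨q, hq⟩ := rational_conductor σ 1 le_rfl N hN A m hm hA hs H ε hε hH
  have hq0 : 0 < q := by
    have : (0 : ℝ) < (q : ℝ) := by rw [hq]; exact hN
    exact_mod_cast this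
  rw [← hq] at hH
  have hb : 1 ≤ q.den := q.den_pos
  have hO := orbit_of3 σ 1 le_rfl q hq0 A m hm hA (sub_of_pol A hs) H ε hH
  obtain ⟨C, hC, hD⟩ := upD _ (GD_dil 1 le_rfl q.den hb (acl 1 A σ) hH.ram) hO
  have hd0 : (0 : ℝ) < (q.den : ℝ) := by exact_mod_cast hb
  have hd1 : (1 : ℝ) ≤ (q.den : ℝ) := by exact_mod_cast hb
  refine ⟨(q.den : ℝ) ^ (2 : ℝ) * C, fun s hs1 hs2 => ?_⟩
  have h4 := hD s hs1 hs2
  rw [DU_dil 1 le_rfl q.den hb _ s hs1] at h4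
  have hD0 : (0 : ℝ) ≤ ∑' n : ℕ, ‖acl 1 A σ n‖ ^ 2 / (n : ℝ) ^ s :=
    tsum_nonneg fun n => by positivity
  have hp2 : 1 ≤ (q.den : ℝ) ^ (2 : ℝ) * (q.den : ℝ) ^ (-(s + ((1 : ℕ) : ℝ) - 1)) := by
    rw [← Real.rpow_add hd0]
    refine Real.one_le_rpow hd1 ?_
    push_cast
    linarith
  calc ∑' n : ℕ, ‖acl 1 A σ n‖ ^ 2 / (n : ℝ) ^ s
      ≤ ((q.den : ℝ) ^ (2 : ℝ) * (q.den : ℝ) ^ (-(s + ((1 : ℕ) : ℝ) - 1))) *
        ∑' n : ℕ, ‖acl 1 A σ n‖ ^ 2 / (n : ℝ) ^ s := le_mul_of_one_le_left hD0 hp2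
    _ = (q.den : ℝ) ^ (2 : ℝ) * ((q.den : ℝ) ^ (-(s + ((1 : ℕ) : ℝ) - 1)) *
        ∑' n : ℕ, ‖acl 1 A σ n‖ ^ 2 / (n : ℝ) ^ s) := by ring
    _ ≤ (q.den : ℝ) ^ (2 : ℝ) * (C * (s - 1) ^ (-(2 : ℝ))) :=
        mul_le_mul_of_nonneg_left h4 (Real.rpow_nonneg hd0.le _)
    _ = (q.den : ℝ) ^ (2 : ℝ) * C * (s - 1) ^ (-(2 : ℝ)) := by ring

theorem entire_of_primitive {L : Type} [Field L] [NumberField L] (σ : L →+* ℂ) (N : ℝ)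
    (hN : 0 < N) (A : ℕ → L) (m : ℕ) (hm : 1 ≤ m)
    (hA : ∀ n, 1 ≤ n → IsIntegral ℤ ((m : L) * A n)) (hs : PolG A) (F : ℂ → ℂ) (ε : ℂ)
    (hP : IsPrimitive (acl 1 A σ) F) (hε : ‖ε‖ = 1)
    (hfe : ∀ s : ℂ, 0 < s.re → s.re < 1 →
      completed (Real.sqrt N / (2 * Real.pi)) (fun _ : Fin 1 => (1 : ℝ))
          (fun _ => (((1 : ℕ) : ℂ) - 1) / 2) F s =
        ε * (starRingEnd ℂ) (completed (Real.sqrt N / (2 * Real.pi)) (fun _ : Fin 1 => (1 : ℝ))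
          (fun _ => (((1 : ℕ) : ℂ) - 1) / 2) F (1 - (starRingEnd ℂ) s))) :
    ∃ G : ℂ → ℂ, Differentiable ℂ G ∧ ∀ s, s ≠ 1 → G s = F s := by
  by_contra hpole
  have hS : IsSelberg (acl 1 A σ) F := hP.1
  obtain ⟨G, hG, hGo, hGF⟩ := pole_le_one N hN _ F ε hS hε hfe
  obtain ⟨H, hH⟩ := feq_tw N hN _ F ε hS hε hfe G hG hGo hGF
  rw [← acl_tw] at hH
  obtain ⟨C, hC⟩ := D_two σ (4 * N) (by linarith) (tw A) m hm (int_tw A m hA) (polG_tw A hs) H ε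
    hε hH
  rw [acl_tw] at hC
  obtain ⟨C1, hC1, hcomp⟩ := D_comp _ F hS
  have hCpos : 0 < |C| + 1 := by positivity
  have hD : ∀ s : ℝ, 1 < s → s ≤ 2 →
      ∑' n : ℕ, ‖acl 1 A σ n‖ ^ 2 / (n : ℝ) ^ s ≤ (C1 * (|C| + 1)) * (s - 1) ^ (-(2 : ℝ)) := by
    intro s hs1 hs2
    have hp : 0 < (s - 1) ^ (-(2 : ℝ)) := Real.rpow_pos_of_pos (by linarith) _
    calc ∑' n : ℕ, ‖acl 1 A σ n‖ ^ 2 / (n : ℝ) ^ s
        ≤ C1 * ∑' n : ℕ, ‖tw (acl 1 A σ) n‖ ^ 2 / (n : ℝ) ^ s := hcomp s hs1 hs2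
      _ ≤ C1 * (C * (s - 1) ^ (-(2 : ℝ))) := mul_le_mul_of_nonneg_left (hC s hs1 hs2) hC1.le
      _ ≤ C1 * ((|C| + 1) * (s - 1) ^ (-(2 : ℝ))) := by
          refine mul_le_mul_of_nonneg_left (mul_le_mul_of_nonneg_right ?_ hp.le) hC1.le
          linarith [le_abs_self C]
      _ = _ := by ring
  obtain ⟨K, _, hT⟩ := T_le _ F hS _ (by positivity) hD
  obtain ⟨C2, hC2⟩ := S_of_T _ hS.ramanujan K hT
  refine Pool.Agent.H11.PC.primitive_fails _ F hP hpole (Real.sqrt N / (2 * Real.pi)) 1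
    (fun _ => (1 : ℝ)) (fun _ => (((1 : ℕ) : ℂ) - 1) / 2) ε
    (div_pos (Real.sqrt_pos.mpr hN) (by positivity)) (fun _ => one_pos) (fun _ => ?_) hε hfe ?_
    ⟨C2, hC2⟩
  · simp
  · simp

end Pool.Agent.H13.IP
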