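import Mathlib
import Pool.Agent.H13.IC.Fk
import Pool.Agent.H13.IP.Pg
import Pool.Agent.H97.ICW.Wo

/-!
# IP-PH: THEOREM IC, all weights, real conductor, one embedding

The growth condition is only needed for the embeddings different from the given one.
-/

set_option autoImplicit false

namespace Pool.Agent.H13.IP

open Complex NumberField Pool.Agent.H11.Selberg Pool.Agent.H11.SC Pool.Agent.H13.IC
open Pool.Agent.H97.ICB Pool.Agent.H97.ICW Pool.Agent.H99.NR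

theorem primitive_congr {a a' : ℕ → ℂ} {F : ℂ → ℂ} (h : ∀ n : ℕ, 1 ≤ n → a n = a' n)
    (hP : IsPrimitive a F) : IsPrimitive a' F :=
  ⟨selberg_congr h hP.1, hP.2.1, hP.2.2⟩

/-- the given embedding satisfies the growth condition -/
theorem pol_self_emb {L : Type} [Field L] (σ : L →+* ℂ) (A : ℕ → L) (k : ℕ) (hk : 1 ≤ k)
    (a : ℕ → ℂ) (ha : ∀ δ : ℝ, 0 < δ → ∃ C : ℝ, ∀ n : ℕ, 1 ≤ n → ‖a n‖ ≤ C * (n : ℝ) ^ δ)
    (hA : ∀ n : ℕ, 1 ≤ n → σ (A n) = a n * (n : ℂ) ^ (((k : ℂ) - 1) / 2)) :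
    ∃ (C : ℝ) (q : ℕ), ∀ n : ℕ, 1 ≤ n → ‖σ (A n)‖ ≤ C * (n : ℝ) ^ q := by
  obtain ⟨C, hC⟩ := ha 1 one_pos
  refine ⟨C, k + 1, fun n hn => ?_⟩
  have hn0 : (0 : ℝ) < (n : ℝ) := by exact_mod_cast hn
  have hn1 : (1 : ℝ) ≤ (n : ℝ) := by exact_mod_cast hn
  have h1 : ‖(n : ℂ) ^ (((k : ℂ) - 1) / 2)‖ ≤ (n : ℝ) ^ k := by
    have h2 : (((k : ℂ) - 1) / 2) = ((((k : ℝ) - 1) / 2 : ℝ) : ℂ) := by push_cast; ring
    rw [norm_natCast_cpow_of_pos (by omega), h2, Complex.ofReal_re, ← Real.rpow_natCast]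
    refine Real.rpow_le_rpow_of_exponent_le hn1 ?_
    have : (0 : ℝ) ≤ (k : ℝ) := Nat.cast_nonneg k
    linarith
  have h2 := hC n hn
  calc ‖σ (A n)‖ = ‖a n‖ * ‖(n : ℂ) ^ (((k : ℂ) - 1) / 2)‖ := by rw [hA n hn, norm_mul]
    _ ≤ (C * (n : ℝ) ^ (1 : ℝ)) * (n : ℝ) ^ k :=
        mul_le_mul h2 h1 (norm_nonneg _) ((norm_nonneg _).trans h2)
    _ = C * (n : ℝ) ^ (k + 1) := by rw [Real.rpow_one, pow_succ]; ring

theorem main5 {L : Type} [Field L] [NumberField L] (σ : L →+* ℂ) (A : ℕ → L) (m : ℕ)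
    (hm : 1 ≤ m) (hA : ∀ n, 1 ≤ n → IsIntegral ℤ ((m : L) * A n))
    (hs : ∃ (C : ℝ) (q : ℕ), ∀ τ : L →+* ℂ, τ ≠ σ → ∀ n : ℕ, 1 ≤ n → ‖τ (A n)‖ ≤ C * (n : ℝ) ^ q)
    (k : ℕ) (hk : 1 ≤ k) (N : ℝ) (hN : 0 < N) (a : ℕ → ℂ) (F : ℂ → ℂ)
    (hS : IsSelberg a F) (hP : k = 1 → IsPrimitive a F)
    (ha : ∀ n : ℕ, 1 ≤ n → σ (A n) = a n * (n : ℂ) ^ (((k : ℂ) - 1) / 2)) (ε : ℂ)
    (hε : ‖ε‖ = 1)
    (hfe : ∀ s : ℂ, 0 < s.re → s.re < 1 →
      completed (Real.sqrt N / (2 * Real.pi)) (fun _ : Fin 1 => (1 : ℝ))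
          (fun _ => ((k : ℂ) - 1) / 2) F s =
        ε * (starRingEnd ℂ) (completed (Real.sqrt N / (2 * Real.pi))
          (fun _ : Fin 1 => (1 : ℝ)) (fun _ => ((k : ℂ) - 1) / 2) F
          (1 - (starRingEnd ℂ) s))) :
    ∃ C : ℝ, ∀ x : ℝ, 2 ≤ x → |S a x - Real.log (Real.log x)| ≤ C := by
  have h1 : ∀ n : ℕ, 1 ≤ n → a n = acl k A σ n := by
    intro n hn
    have h0 : (n : ℂ) ≠ 0 := by exact_mod_cast (by omega : n ≠ 0)
    have h2 : (n : ℂ) ^ (((k : ℂ) - 1) / 2) ≠ 0 := by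
      rw [Ne, Complex.cpow_eq_zero_iff]
      exact fun h => h0 h.1
    unfold acl
    rw [ha n hn, Complex.cpow_neg, mul_assoc, mul_inv_cancel₀ h2, mul_one]
  have hS' := selberg_congr h1 hS
  have hpol : PolG A := by
    obtain ⟨C, q, hC⟩ := hs
    obtain ⟨C', q', hC'⟩ := pol_self_emb σ A k hk a hS.ramanujan ha
    refine ⟨|C| + |C'|, max q q', fun τ n hn => ?_⟩
    have hn1 : (1 : ℝ) ≤ (n : ℝ) := by exact_mod_cast hn
    by_cases h : τ = σ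
    · rw [h]
      refine (hC' n hn).trans (mul_le_mul ?_ (pow_le_pow_right₀ hn1 (le_max_right _ _))
        (by positivity) (by positivity))
      have := le_abs_self C'
      have := abs_nonneg C
      linarith
    · refine (hC τ h n hn).trans (mul_le_mul ?_ (pow_le_pow_right₀ hn1 (le_max_left _ _))
        (by positivity) (by positivity))
      have := le_abs_self C
      have := abs_nonneg C'
      linarith
  have key : ∃ C : ℝ, ∀ x : ℝ, 2 ≤ x → |S (acl k A σ) x - Real.log (Real.log x)| ≤ C := by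
    rcases Nat.lt_or_ge 1 k with h2 | h2
    · exact (main_real σ k h2 N hN A m hm hA hpol F ε hS' hε hfe).2
    · obtain rfl : k = 1 := by omega
      have hP' := primitive_congr h1 (hP rfl)
      obtain ⟨G, hG, hGF⟩ := entire_of_primitive σ N hN A m hm hA hpol F ε hP' hε hfe
      have hF := feq_of_entire 1 le_rfl N hN _ F ε hS' hε G hG hGF hfe
      obtain ⟨q, hq⟩ := rational_conductor σ 1 le_rfl N hN A m hm hA hpol G ε hε hF
      have hq0 : 0 < q := by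
        have : (0 : ℝ) < (q : ℝ) := by rw [hq]; exact hN
        exact_mod_cast this
      rw [← hq] at hfe
      exact weight_one σ q hq0 A m hm hA (sub_of_pol A hpol) F ε hS' hP' ⟨G, hG, hGF⟩ hε hfe
  obtain ⟨C, hC⟩ := key
  refine ⟨C, fun x hx => ?_⟩
  rw [S_congr h1]
  exact hC x hx

end Pool.Agent.H13.IP
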